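import Pool.Agent.Helper51.SDL.Goals

set_option autoImplicit false

namespace Pool.Agent.Helper37.SDL.KM

open NumberField Module IsDedekindDomain
open Pool.Agent.Helper51.RP Pool.Agent.Helper51.REC Pool.Agent.Helper16.SD
open Pool.Agent.Helper51.SDL

lemma fixed_mem {F L : Type} [Field F] [Field L] [Algebra F L] [IsGalois F L]
    (σ : L ≃ₐ[F] L) (hσ : ∀ g : L ≃ₐ[F] L, g ∈ Subgroup.zpowers σ) (x : L) (hx : σ x = x) :
    ∃ f : F, algebraMap F L f = x := by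
  have h : ∀ g : L ≃ₐ[F] L, g x = x := by
    intro g
    have hs : σ ∈ MulAction.stabilizer (L ≃ₐ[F] L) x := by
      rw [MulAction.mem_stabilizer_iff]; exact hx
    have hg : g ∈ MulAction.stabilizer (L ≃ₐ[F] L) x :=
      (Subgroup.zpowers_le.2 hs) (hσ g)
    exact MulAction.mem_stabilizer_iff.1 hg
  exact (InfiniteGalois.mem_range_algebraMap_iff_fixed x).2 h

lemma root_eq {p : ℕ} {F L : Type} [Field F] [Field L] [Algebra F L] [NeZero p] {ε : F}
    (hε : IsPrimitiveRoot ε p) (σ : L ≃ₐ[F] L) (β : F) (b : L) (hb0 : b ≠ 0)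
    (hb : b ^ p = algebraMap F L β) : ∃ a < p, σ b = algebraMap F L ε ^ a * b := by
  have h1 : (σ b / b) ^ p = 1 := by
    rw [div_pow, ← map_pow, hb, AlgEquiv.commutes, ← hb, div_self (pow_ne_zero _ hb0)]
  have h2 : IsPrimitiveRoot (algebraMap F L ε) p :=
    hε.map_of_injective (algebraMap F L).injective
  obtain ⟨a, ha, ha'⟩ := h2.eq_pow_of_pow_eq_one h1
  exact ⟨a, ha, by rw [ha', div_mul_cancel₀ _ hb0]⟩

theorem t : S_KM := by
  intro p _ F L _ _ _ _ _ _ ε hε hcyc β₁ β₂ hb1 hb2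
  obtain ⟨b1, hb1⟩ := hb1
  obtain ⟨b2, hb2⟩ := hb2
  obtain ⟨σ, hσ⟩ := hcyc.exists_generator
  have hp := (Fact.out : p.Prime)
  have hp0 : p ≠ 0 := hp.ne_zero
  have ne : ∀ (β : Fˣ) (b : L), b ^ p = algebraMap F L β → b ≠ 0 := by
    intro β b hb h0
    rw [h0, zero_pow hp0] at hb
    exact β.ne_zero ((map_eq_zero (algebraMap F L)).1 hb.symm)
  have h10 := ne β₁ b1 hb1
  have h20 := ne β₂ b2 hb2
  obtain ⟨a1, ha1, e1⟩ := root_eq hε σ _ b1 h10 hb1
  obtain ⟨a2, ha2, e2⟩ := root_eq hε σ _ b2 h20 hb2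
  -- from a fixed element to a power
  have fin : ∀ a b : ℕ, σ (b1 ^ a * b2 ^ b) = b1 ^ a * b2 ^ b → Pw p (β₁ ^ a * β₂ ^ b) := by
    intro a b h
    obtain ⟨f, hf⟩ := fixed_mem σ hσ _ h
    have hf' : f ^ p = ((β₁ ^ a * β₂ ^ b : Fˣ) : F) := by
      apply (algebraMap F L).injective
      rw [map_pow, hf, mul_pow, ← pow_mul, ← pow_mul, mul_comm a p, mul_comm b p, pow_mul, pow_mul,
        hb1, hb2]
      simp
    have hf0 : f ≠ 0 := by
      intro h0
      rw [h0, zero_pow hp0] at hf'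
      exact (β₁ ^ a * β₂ ^ b : Fˣ).ne_zero hf'.symm
    exact ⟨Units.mk0 f hf0, by ext; simp [hf']⟩
  have hεL : algebraMap F L ε ^ p = 1 := by
    rw [← map_pow, hε.pow_eq_one, map_one]
  by_cases hd : p ∣ a1
  · have : a1 = 0 := Nat.eq_zero_of_dvd_of_lt hd ha1
    refine ⟨1, 0, Or.inl (fun h => hp.one_lt.ne' (Nat.dvd_one.1 h)), fin 1 0 ?_⟩
    simp [e1, this]
  · have hcop : ((a1 : ℕ) : ZMod p) ≠ 0 := by
      rw [Ne, ZMod.natCast_eq_zero_iff]; exact hd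
    set c := ((-(a2 : ZMod p)) * (a1 : ZMod p)⁻¹).val with hc
    have hdvd : p ∣ c * a1 + a2 := by
      rw [← ZMod.natCast_eq_zero_iff]
      push_cast
      rw [hc, ZMod.natCast_val, ZMod.cast_id, mul_assoc, inv_mul_cancel₀ hcop]
      ring
    obtain ⟨d, hd'⟩ := hdvd
    refine ⟨c, 1, Or.inr (fun h => hp.one_lt.ne' (Nat.dvd_one.1 h)), fin c 1 ?_⟩
    rw [map_mul, map_pow, map_pow, e1, e2]
    calc _ = (algebraMap F L ε) ^ (c * a1 + a2) * (b1 ^ c * b2 ^ 1) := by ring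
      _ = _ := by rw [hd', pow_mul, hεL, one_pow, one_mul]

end Pool.Agent.Helper37.SDL.KM
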